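import Pool.Agent.MP_da4a48_co.H89.Main

set_option autoImplicit false

namespace Pool.Agent.MP_da4a48_co.H93

/-- The extremal value for families of subsets. -/
theorem sets_version :
    ∀ n δ : ℕ, δ ≤ n →
      IsGreatest
        {p : ℕ | ∃ A B : Finset (Finset (Fin n)),
            (∀ a ∈ A, ∀ b ∈ B, (a ∩ b).card = δ) ∧ p = A.card * B.card}
        ((Finset.range (n - δ + 1)).sup (fun m => 2 ^ m * Nat.choose (n - m) δ)) := by
  intro n δ hδ
  constructor
  · obtain ⟨m, hm, hsup⟩ := Finset.exists_mem_eq_sup (Finset.range (n - δ + 1))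
      ⟨0, Finset.mem_range.2 (Nat.succ_pos _)⟩ (fun m => 2 ^ m * Nat.choose (n - m) δ)
    have hmn : m ≤ (Finset.univ : Finset (Fin n)).card := by
      have := Finset.mem_range.1 hm
      rw [Finset.card_univ, Fintype.card_fin]
      omega
    obtain ⟨M, -, hM⟩ := Finset.exists_subset_card_eq hmn
    refine ⟨(Finset.powerset M).image (· ∪ Mᶜ), Finset.powersetCard δ Mᶜ, ?_, ?_⟩
    · intro a ha b hb
      obtain ⟨x, -, rfl⟩ := Finset.mem_image.1 ha
      obtain ⟨hb1, hb2⟩ := Finset.mem_powersetCard.1 hb
      rw [Finset.inter_eq_right.2 (hb1.trans Finset.subset_union_right), hb2]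
    · rw [hsup, Finset.card_image_of_injOn, Finset.card_powerset, Finset.card_powersetCard,
        Finset.card_compl, Fintype.card_fin, hM]
      intro x hx y hy h
      have hx' : x ⊆ M := Finset.mem_powerset.1 hx
      have hy' : y ⊆ M := Finset.mem_powerset.1 hy
      have h' : x ∪ Mᶜ = y ∪ Mᶜ := h
      ext i
      have hi := Finset.ext_iff.1 h' i
      simp only [Finset.mem_union, Finset.mem_compl] at hi
      constructor
      · intro a
        rcases hi.1 (Or.inl a) with c | c
        · exact c
        · exact absurd (hx' a) c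
      · intro a
        rcases hi.2 (Or.inl a) with c | c
        · exact c
        · exact absurd (hy' a) c
  · rintro p ⟨A, B, hAB, rfl⟩
    rcases le_total (2 * δ) n with h | h
    · have h1 := Pool.Agent.MP_da4a48_co.H89.main_nat Finset.univ A B δ
        (fun a _ => Finset.subset_univ a) (fun a _ => Finset.subset_univ a) hAB
      rw [Finset.card_univ, Fintype.card_fin] at h1
      refine le_trans ?_ (Finset.le_sup (f := fun m => 2 ^ m * Nat.choose (n - m) δ)
        (b := n - 2 * δ) (Finset.mem_range.2 (by omega)))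
      have e : n - (n - 2 * δ) = 2 * δ := by omega
      have e2 : 2 ^ n = 2 ^ (n - 2 * δ) * 4 ^ δ := by
        rw [show (4 : ℕ) = 2 ^ 2 by norm_num, ← pow_mul, ← pow_add]
        congr 1
        omega
      show A.card * B.card ≤ 2 ^ (n - 2 * δ) * Nat.choose (n - (n - 2 * δ)) δ
      rw [e]
      apply Nat.le_of_mul_le_mul_right (c := 4 ^ δ) _ (by positivity)
      calc _ ≤ _ := h1
        _ = _ := by rw [e2]; ring
    · have h1 := Pool.Agent.MP_da4a48_co.H89.small_bound δ Finset.univ A B
        (fun a _ => Finset.subset_univ a) (fun a _ => Finset.subset_univ a) hAB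
        (by rw [Finset.card_univ, Fintype.card_fin]; exact h)
      rw [Finset.card_univ, Fintype.card_fin] at h1
      refine le_trans ?_ (Finset.le_sup (f := fun m => 2 ^ m * Nat.choose (n - m) δ)
        (b := 0) (Finset.mem_range.2 (by omega)))
      simpa using h1

end Pool.Agent.MP_da4a48_co.H93
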